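import Mathlib

set_option autoImplicit false

open Filter Topology

namespace Pool.Agent.Results.MP_43f217_an.MaxNotClosed

/-- The data of a magnetic Schrödinger operator: a weighted graph `(X, b)`, a weight `μ`, a
Hilbert bundle `E` with unitary connection `Φ` and a self-adjoint bundle endomorphism `W`. -/
structure MagneticGraph (X : Type) (E : X → Type) [∀ x, NormedAddCommGroup (E x)]
    [∀ x, InnerProductSpace ℂ (E x)] [∀ x, CompleteSpace (E x)] where
  b : X → X → ℝ
  b_nonneg : ∀ x y, 0 ≤ b x y
  b_symm : ∀ x y, b x y = b y x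
  b_diag : ∀ x, b x x = 0
  b_summable : ∀ x, Summable (b x)
  μ : X → ℝ
  μ_pos : ∀ x, 0 < μ x
  Φ : ∀ x y, E y ≃ₗᵢ[ℂ] E x
  Φ_symm : ∀ x y, Φ y x = (Φ x y).symm
  W : ∀ x, E x →L[ℂ] E x
  W_selfAdjoint : ∀ x, IsSelfAdjoint (W x)

variable {X : Type} {E : X → Type} [∀ x, NormedAddCommGroup (E x)]
    [∀ x, InnerProductSpace ℂ (E x)] [∀ x, CompleteSpace (E x)]

namespace MagneticGraph

/-- Square summable sections, i.e. the elements of `ℓ²(X, μ; E)`. -/
def IsL2 (G : MagneticGraph X E) (f : ∀ x, E x) : Prop := Summable fun x => ‖f x‖ ^ 2 * G.μ x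

/-- The square of the norm of `ℓ²(X, μ; E)`. -/
noncomputable def normSq (G : MagneticGraph X E) (f : ∀ x, E x) : ℝ := ∑' x, ‖f x‖ ^ 2 * G.μ x

/-- The formal domain. -/
def IsFormal (G : MagneticGraph X E) (f : ∀ x, E x) : Prop :=
  ∀ x, Summable fun y => G.b x y * ‖f y‖

/-- The formal magnetic Schrödinger operator. -/
noncomputable def M (G : MagneticGraph X E) (f : ∀ x, E x) (x : X) : E x :=
  (1 / G.μ x : ℝ) • (∑' y, G.b x y • (f x - G.Φ x y (f y))) + G.W x (f x)

/-- The domain of the maximal restriction `M^max`. -/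
def InDomain (G : MagneticGraph X E) (f : ∀ x, E x) : Prop :=
  G.IsFormal f ∧ G.IsL2 f ∧ G.IsL2 (G.M f)

/-- `M^max` is closed: if `u n` are in the domain, `u n → f` and `M (u n) → g` in `ℓ²(X, μ; E)`,
then `f` is in the domain and `M f = g`. -/
def MaxIsClosed (G : MagneticGraph X E) : Prop :=
  ∀ (u : ℕ → ∀ x, E x) (f g : ∀ x, E x), (∀ n, G.InDomain (u n)) → G.IsL2 f → G.IsL2 g →
    Tendsto (fun n => G.normSq (u n - f)) atTop (𝓝 0) →
    Tendsto (fun n => G.normSq (G.M (u n) - g)) atTop (𝓝 0) →
    G.InDomain f ∧ G.M f = g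

/-- `M^max` is closable: if `u n` are in the domain, `u n → 0` and `M (u n) → g` in
`ℓ²(X, μ; E)`, then `g = 0`. -/
def MaxIsClosable (G : MagneticGraph X E) : Prop :=
  ∀ (u : ℕ → ∀ x, E x) (g : ∀ x, E x), (∀ n, G.InDomain (u n)) → G.IsL2 g →
    Tendsto (fun n => G.normSq (u n)) atTop (𝓝 0) →
    Tendsto (fun n => G.normSq (G.M (u n) - g)) atTop (𝓝 0) → g = 0

end MagneticGraph

/-! ### The star -/

/-- edge weights of the star with centre `0` and leaves `1, 2, …` -/
noncomputable def sb (x y : ℕ) : ℝ :=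
  if x = 0 then (if y = 0 then 0 else (1 / 2) ^ y) else (if y = 0 then (1 / 2) ^ x else 0)

theorem sb_summable (x : ℕ) : Summable (sb x) := by
  by_cases h : x = 0
  · subst h
    refine Summable.of_nonneg_of_le (f := fun y : ℕ => (1 / 2 : ℝ) ^ y) ?_ ?_
      (summable_geometric_of_lt_one (by norm_num) (by norm_num))
    · intro y
      unfold sb
      split_ifs <;> positivity
    · intro y
      have : sb 0 y = if y = 0 then 0 else (1 / 2) ^ y := by simp [sb]
      rw [this]
      split_ifs
      · positivity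
      · exact le_refl _
  · apply summable_of_ne_finset_zero (s := {0})
    intro y hy
    have hy' : y ≠ 0 := by simpa using hy
    simp [sb, h, hy']

/-- The star with scalar bundle, trivial connection, `μ 0 = 1`, `μ n = 8^{-n}`, and potential
`W n = - 4^n` at the leaves `n ≥ 1`, `W 0 = 0`. -/
noncomputable def star : MagneticGraph ℕ (fun _ => ℂ) where
  b := sb
  b_nonneg := by
    intro x y
    unfold sb
    split_ifs <;> positivity
  b_symm := by
    intro x y
    unfold sb
    split_ifs <;> rfl
  b_diag := by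
    intro x
    unfold sb
    split_ifs <;> rfl
  b_summable := sb_summable
  μ := fun x => (1 / 8) ^ x
  μ_pos := fun x => by positivity
  Φ := fun _ _ => LinearIsometryEquiv.refl ℂ ℂ
  Φ_symm := fun _ _ => rfl
  W := fun x => ((if x = 0 then 0 else -(4 : ℝ) ^ x : ℝ) : ℂ) • ContinuousLinearMap.id ℂ ℂ
  W_selfAdjoint := by
    intro x
    rw [isSelfAdjoint_iff]
    rw [star_smul]
    congr 1
    · exact Complex.conj_ofReal _
    · exact (ContinuousLinearMap.adjoint_id)

/-- the sections `2^n δ_n`, `n ≥ 1` -/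
noncomputable def u (n : ℕ) (x : ℕ) : ℂ := if x = n + 1 then 2 ^ (n + 1) else 0

/-- the section `- δ_0` -/
noncomputable def g (x : ℕ) : ℂ := if x = 0 then -1 else 0

theorem M_u (n : ℕ) : star.M (u n) = g := by
  funext x
  unfold MagneticGraph.M
  change (1 / (1 / 8) ^ x : ℝ) • (∑' y, sb x y • (u n x - u n y)) +
    ((if x = 0 then 0 else -(4 : ℝ) ^ x : ℝ) : ℂ) * (u n x) = g x
  by_cases hx : x = 0
  · subst hx
    rw [tsum_eq_single (n + 1)]
    · simp [sb, u, g]
    · intro y hy
      simp [u, hy]
  · rw [tsum_eq_single 0]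
    · by_cases hxn : x = n + 1
      · subst hxn
        simp only [sb, u, g, hx, if_false, if_true, Complex.real_smul]
        have h0 : ¬ (0 = n + 1) := by omega
        simp only [h0, if_false]
        push_cast
        have h8 : (8 : ℂ) ^ (n + 1) = 4 ^ (n + 1) * 2 ^ (n + 1) := by
          rw [← mul_pow]; norm_num
        have h2 : (1 / 2 : ℂ) ^ (n + 1) * 2 ^ (n + 1) = 1 := by
          rw [← mul_pow]; norm_num
        have h3 : (1 / (1 / 8 : ℂ) ^ (n + 1)) = 8 ^ (n + 1) := by
          rw [one_div, ← inv_pow]; norm_num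
        rw [h3, sub_zero, h2, h8]
        ring
      · simp [u, hxn, g, hx]
    · intro y hy
      simp [sb, hx, hy]

theorem normSq_single (a : ℕ) (c : ℂ) :
    star.normSq (fun x => if x = a then c else 0) = ‖c‖ ^ 2 * (1 / 8) ^ a := by
  unfold MagneticGraph.normSq
  rw [tsum_eq_single a]
  · simp [star]
  · intro y hy
    simp [hy]

theorem isL2_single (a : ℕ) (c : ℂ) : star.IsL2 (fun x => if x = a then c else 0) := by
  unfold MagneticGraph.IsL2
  apply summable_of_ne_finset_zero (s := {a})
  intro y hy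
  have : y ≠ a := by simpa using hy
  simp [this]

theorem u_inDomain (n : ℕ) : star.InDomain (u n) := by
  refine ⟨fun x => ?_, isL2_single _ _, ?_⟩
  · apply summable_of_ne_finset_zero (s := {n + 1})
    intro y hy
    have : y ≠ n + 1 := by simpa using hy
    simp [u, this]
  · rw [M_u]
    exact isL2_single _ _

theorem u_tendsto : Tendsto (fun n => star.normSq (u n)) atTop (𝓝 0) := by
  have h : ∀ n, star.normSq (u n) = (1 / 2) ^ (n + 1) := by
    intro n
    have := normSq_single (n + 1) (2 ^ (n + 1))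
    change star.normSq (u n) = _ at this
    rw [this]
    rw [norm_pow, Complex.norm_ofNat, ← pow_mul, mul_comm (n + 1) 2, pow_mul, ← mul_pow]
    norm_num
  simp_rw [h]
  exact (tendsto_pow_atTop_nhds_zero_of_lt_one (by norm_num) (by norm_num)).comp
    (tendsto_add_atTop_nat 1)

theorem M_u_tendsto : Tendsto (fun n => star.normSq (star.M (u n) - g)) atTop (𝓝 0) := by
  have h : ∀ n, star.normSq (star.M (u n) - g) = 0 := by
    intro n
    rw [M_u, sub_self]
    simp [MagneticGraph.normSq]
  simp_rw [h]
  exact tendsto_const_nhds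

theorem g_ne : g ≠ 0 := by
  intro h
  have := congrFun h 0
  simp [g] at this

/-- **The maximal magnetic Schrödinger operator need not be closed.** There are a countable
weighted graph, a weight, a Hilbert bundle with unitary connection and a self-adjoint bundle
endomorphism such that the maximal restriction `M^max` is not closed; it is not even closable. The
example is scalar: all fibres are `ℂ` and all connection maps are the identity. -/
theorem result : ∃ G : MagneticGraph ℕ (fun _ => ℂ),
    (∀ x y, G.Φ x y = LinearIsometryEquiv.refl ℂ ℂ) ∧ ¬ G.MaxIsClosed ∧ ¬ G.MaxIsClosable := by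
  refine ⟨star, fun _ _ => rfl, ?_, ?_⟩
  · intro h
    have h1 := h u 0 g u_inDomain (by simp [MagneticGraph.IsL2]) (isL2_single _ _)
      (by simpa using u_tendsto) M_u_tendsto
    apply g_ne
    rw [← h1.2]
    funext x
    simp [MagneticGraph.M]
  · intro h
    exact g_ne (h u g u_inDomain (isL2_single _ _) u_tendsto M_u_tendsto)

end Pool.Agent.Results.MP_43f217_an.MaxNotClosed
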